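import Pool.Agent.Helper72.MK.Goals

/-!
# MK, packet CTZ: continuity of the diagonals
-/

open MeasureTheory Set Filter Topology
open scoped ENNReal Quaternion
open Pool.Agent.Helper47.AQ

noncomputable section

namespace Pool.Agent.Helper12.MK

open Pool.Agent.Helper72.MK

theorem ip_add_left (x y z : Fin 3 → ℝ) : ip (x + y) z = ip x z + ip y z := by
  simp only [ip, Pi.add_apply, add_mul, Finset.sum_add_distrib]

theorem ip_sub_left (x y z : Fin 3 → ℝ) : ip (x - y) z = ip x z - ip y z := by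
  simp only [ip, Pi.sub_apply, sub_mul, Finset.sum_sub_distrib]

theorem ip_smul_left (c : ℝ) (x z : Fin 3 → ℝ) : ip (c • x) z = c * ip x z := by
  simp only [ip, Pi.smul_apply, smul_eq_mul, Finset.mul_sum, mul_assoc]

theorem ip_comm (x z : Fin 3 → ℝ) : ip x z = ip z x := by
  simp only [ip, mul_comm]

theorem ip_zero_left (z : Fin 3 → ℝ) : ip 0 z = 0 := by
  simp [ip]

theorem indep_aux {x1 x2 x3 : Fin 3 → ℝ} (h11 : ip x1 x1 = 1) (h33 : ip x3 x3 = 1)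
    (h12 : ip x1 x2 = 0) (h13 : ip x1 x3 = 0) (h23 : ip x2 x3 = 0) (c : ℝ) :
    LinearIndependent ℝ ![(1 / 2 : ℝ) • (x1 + c • x2), x3] := by
  rw [LinearIndependent.pair_iff]
  intro s t hst
  have e1 := congrArg (fun z => ip z x1) hst
  have e3 := congrArg (fun z => ip z x3) hst
  simp only [ip_add_left, ip_smul_left, ip_zero_left] at e1 e3
  rw [h11, ip_comm x2 x1, h12, ip_comm x3 x1, h13] at e1
  rw [h13, h23, h33] at e3
  constructor
  · linarith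
  · linarith

theorem cont_comb {X : Type} [TopologicalSpace X] {s : Set X} {τ : X → ℝ}
    {f h : X → Fin 3 → ℝ} (hτ : ContinuousOn τ s) (hf : ContinuousOn f s)
    (hh : ContinuousOn h s) : ContinuousOn (fun g => f g + τ g • h g) s :=
  hf.add (hτ.smul hh)

theorem ctz (hF : FRMStmt) (hA : ARCStmt) : CTZStmt := by
  intro K τ hK hτ hpos
  obtain ⟨⟨hq1, hq2, hq3⟩, hF⟩ := hF
  have h1 : ContinuousOn q1 (SS ℍ[ℝ]) := hq1.continuousOn
  have h2 : ContinuousOn q2 (SS ℍ[ℝ]) := hq2.continuousOn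
  have h3 : ContinuousOn q3 (SS ℍ[ℝ]) := hq3.continuousOn
  have hτi : ContinuousOn (fun g => (τ g)⁻¹) (SS ℍ[ℝ]) := hτ.inv₀ fun g hg => (hpos g hg).ne'
  have hn1 : ContinuousOn (fun g => n1 (τ g) g) (SS ℍ[ℝ]) := h1.add (hτ.smul h2)
  have hn2 : ContinuousOn (fun g => n2 (τ g) g) (SS ℍ[ℝ]) := h1.sub (hτ.smul h2)
  have hm1 : ContinuousOn (fun g => m1 (τ g) g) (SS ℍ[ℝ]) :=
    (h1.add (hτi.smul h2)).const_smul (1 / 2 : ℝ)
  have hm2 : ContinuousOn (fun g => m2 (τ g) g) (SS ℍ[ℝ]) :=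
    (h1.sub (hτi.smul h2)).const_smul (1 / 2 : ℝ)
  have hA1 : ContinuousOn (fun g => Ar (dpol K) (m1 (τ g) g) (q3 g)) (SS ℍ[ℝ]) := by
    refine (hA K hK).comp (f := fun g => (m1 (τ g) g, q3 g)) (hm1.prodMk h3) ?_
    intro g hg
    obtain ⟨-, -, ⟨a1, a2, a3, a4, a5, a6⟩, -, -⟩ := hF g hg
    exact indep_aux a1 a3 a4 a5 a6 (τ g)⁻¹
  have hA2 : ContinuousOn (fun g => Ar (dpol K) (m2 (τ g) g) (q3 g)) (SS ℍ[ℝ]) := by
    refine (hA K hK).comp (f := fun g => (m2 (τ g) g, q3 g)) (hm2.prodMk h3) ?_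
    intro g hg
    obtain ⟨-, -, ⟨a1, a2, a3, a4, a5, a6⟩, -, -⟩ := hF g hg
    have h4 := indep_aux a1 a3 a4 a5 a6 (-(τ g)⁻¹)
    have h5 : (1 / 2 : ℝ) • (q1 g + -(τ g)⁻¹ • q2 g) = m2 (τ g) g := by
      rw [m2, neg_smul, ← sub_eq_add_neg]
    rw [h5] at h4
    exact h4
  have hden : ContinuousOn (fun g => (3 * τ g * (volume (dpol K)).toReal)⁻¹) (SS ℍ[ℝ]) := by
    have : (fun g => (3 * τ g * (volume (dpol K)).toReal)⁻¹) =
        fun g => 3⁻¹ * (τ g)⁻¹ * ((volume (dpol K)).toReal)⁻¹ := by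
      funext g
      rw [mul_inv, mul_inv]
    rw [this]
    exact (hτi.const_smul (3⁻¹ : ℝ)).mul continuousOn_const
  have hzA : ContinuousOn (fun g => zA K (τ g) g) (SS ℍ[ℝ]) := by
    unfold zA
    simp only [div_eq_mul_inv]
    exact (hA2.mul hden).smul hn1
  have hzB : ContinuousOn (fun g => zB K (τ g) g) (SS ℍ[ℝ]) := by
    unfold zB
    simp only [div_eq_mul_inv]
    exact (hA1.mul hden).smul hn2
  exact ⟨hzA.add hzB, hzA.sub hzB⟩

end Pool.Agent.Helper12.MK
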