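import Pool.Agent.Helper72.MK.GoalsT

/-!
# MK, packet DCV: dominated convergence for volumes
-/

open MeasureTheory Set Filter Topology
open scoped ENNReal Quaternion

noncomputable section

namespace Pool.Agent.Helper12.MK

open Pool.Agent.Helper72.MK

theorem dcv : DCVStmt := by
  intro T l _ n A Φ Φ₀ hA hAt hΦ hΦ₀ hlim h0
  have hS : ∀ t, MeasurableSet (A ∩ {x | 0 < Φ t x}) := fun t =>
    hA.inter (measurableSet_lt measurable_const (hΦ t))
  have hS₀ : MeasurableSet (A ∩ {x | 0 < Φ₀ x}) :=
    hA.inter (measurableSet_lt measurable_const hΦ₀)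
  have e1 : ∀ t, (volume (A ∩ {x | 0 < Φ t x})).toReal =
      ∫ x, (A ∩ {x | 0 < Φ t x}).indicator (1 : (Fin n → ℝ) → ℝ) x := fun t => by
    rw [integral_indicator_one (hS t)]
    rfl
  have e2 : (volume (A ∩ {x | 0 < Φ₀ x})).toReal =
      ∫ x, (A ∩ {x | 0 < Φ₀ x}).indicator (1 : (Fin n → ℝ) → ℝ) x := by
    rw [integral_indicator_one hS₀]
    rfl
  simp only [e1]
  rw [e2]
  refine tendsto_integral_filter_of_dominated_convergence
    (A.indicator (1 : (Fin n → ℝ) → ℝ)) ?_ ?_ ?_ ?_
  · exact Eventually.of_forall fun t =>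
      (measurable_one.indicator (hS t)).aestronglyMeasurable
  · refine Eventually.of_forall fun t => Eventually.of_forall fun x => ?_
    by_cases hx : x ∈ A ∩ {x | 0 < Φ t x}
    · rw [indicator_of_mem hx, indicator_of_mem hx.1]
      simp
    · rw [indicator_of_notMem hx, norm_zero]
      exact indicator_nonneg (fun _ _ => zero_le_one) x
  · exact (integrable_indicator_iff hA).2 (integrableOn_const hAt)
  · have h1 : ∀ᵐ x : Fin n → ℝ, x ∉ A ∩ {x | Φ₀ x = 0} := by
      rw [ae_iff]
      simp only [not_not]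
      exact h0
    filter_upwards [h1] with x hx
    by_cases hxA : x ∈ A
    · have hne : Φ₀ x ≠ 0 := fun h => hx ⟨hxA, h⟩
      rcases lt_or_gt_of_ne hne with h2 | h2
      · have h3 : x ∉ A ∩ {x | 0 < Φ₀ x} := fun h => lt_asymm h2 h.2
        rw [indicator_of_notMem h3]
        refine tendsto_const_nhds.congr' ?_
        filter_upwards [(hlim x hxA).eventually (gt_mem_nhds h2)] with t ht
        have h4 : x ∉ A ∩ {x | 0 < Φ t x} := fun h => lt_asymm ht h.2
        rw [indicator_of_notMem h4]
      · have h3 : x ∈ A ∩ {x | 0 < Φ₀ x} := ⟨hxA, h2⟩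
        rw [indicator_of_mem h3]
        refine tendsto_const_nhds.congr' ?_
        filter_upwards [(hlim x hxA).eventually (lt_mem_nhds h2)] with t ht
        have h4 : x ∈ A ∩ {x | 0 < Φ t x} := ⟨hxA, ht⟩
        rw [indicator_of_mem h4]
    · have h3 : x ∉ A ∩ {x | 0 < Φ₀ x} := fun h => hxA h.1
      rw [indicator_of_notMem h3]
      refine tendsto_const_nhds.congr' (Eventually.of_forall fun t => ?_)
      have h4 : x ∉ A ∩ {x | 0 < Φ t x} := fun h => hxA h.1
      exact (indicator_of_notMem h4 _).symm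

end Pool.Agent.Helper12.MK
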